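import Pool.Agent.H71.CR.Stmt

/-! Statement AVO: good pieces which avoid a list. -/

set_option autoImplicit false

open Set Pool.Agent.TK Pool.Agent.H71.VK

namespace Pool.Agent.CR

theorem pf_AVO : T_AVO := by
  classical
  intro n c Sm G π hπ hG Z
  let S : List ℕ := (Z ++ dl π).filter fun a => decide (a ∈ st c π)
  have hS : ∀ a, a ∈ S ↔ (a ∈ Z ∨ a ∈ dl π) ∧ a ∈ st c π := by
    intro a
    simp only [S, List.mem_filter, List.mem_append, decide_eq_true_eq]
  have hst : ∀ y, y ∈ st c ((S, [], ([], []), false) :: π) ↔ y ∈ st c π ∧ y ∉ S ++ zl π := by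
    intro y
    rw [st_false]
    constructor
    · intro h
      exact ⟨h.1, h.2.1⟩
    · intro h
      refine ⟨h.1, h.2, ?_⟩
      rw [cl_nil]
      exact Set.notMem_empty y
  have havo : ∀ a, (a ∈ Z ∨ a ∈ dl π) → a ∉ st c ((S, [], ([], []), false) :: π) := by
    intro a ha h
    have h1 := (hst a).1 h
    exact h1.2 (List.mem_append_left _ ((hS a).2 ⟨ha, h1.1⟩))
  refine ⟨[(S, [], ([], []), false)], ?_, ?_, ?_, ?_⟩
  · change Vd c ((S, [], ([], []), false) :: π)
    rw [vd_cons]
    refine ⟨hπ, ?_, ?_, ?_, ?_, ?_⟩
    · intro a ha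
      exact ((hS a).1 ha).2
    · intro e he
      simp at he
    · intro a ha
      simp at ha
    · intro a ha
      simp at ha
    · intro q hq hpl D hD
      have e : D = [] := by
        by_contra h0
        obtain ⟨a, ha⟩ := List.exists_mem_of_ne_nil D h0
        have h1 := hD a ha
        change a ∈ cl c (st c π) (S ++ zl π) [] ([], []) at h1
        rw [cl_nil] at h1
        exact h1
      rw [e]
      exact hpl
  · intro hN
    apply hG
    change G.Nn (st c ((S, [], ([], []), false) :: π)) at hN
    refine (hN.union (G.nn_list S)).mono ?_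
    intro y hy
    by_cases h1 : y ∈ S
    · exact Or.inr h1
    · refine Or.inl ((hst y).2 ⟨hy, ?_⟩)
      rw [List.mem_append]
      rintro (h2 | h2)
      · exact h1 h2
      · exact zl_disj hπ y h2 hy
  · intro a ha
    exact havo a (Or.inl ha)
  · intro a ha
    change a ∈ dl ((S, [], ([], []), false) :: π) at ha
    change a ∉ st c ((S, [], ([], []), false) :: π)
    rw [mem_dl_cons] at ha
    rcases ha with h | h | ⟨e, he, h⟩ | h | h
    · simp at h
    · simp at h
    · simp at he
    · intro h2
      exact ((hst a).1 h2).2 (List.mem_append_left _ h)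
    · exact havo a (Or.inr h)

end Pool.Agent.CR
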