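import Pool.Agent.H71.CR.StmtF

/-! BIN: binary structures with few types of substructures have a bounded number of germs. -/

set_option autoImplicit false

open Set Pool.Agent.TK Pool.Agent.H71.VK

namespace Pool.Agent.CR

variable {n : ℕ} {C : Type}

/-- the binary form of a structure of arity 2 -/
private def h60B (x : DS 2 n C) : (ℕ → ℕ → Fin n) × (ℕ → C) := (fun i j => x.1 ![i, j], x.2)

private lemma h60_vec (a : Fin 2 → ℕ) : ![a 0, a 1] = a := by
  funext i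
  fin_cases i <;> rfl

private lemma h60_perf [MeasurableSpace C] (x : DS 2 n C) (hP : ¬ PerfD (SubD x)) :
    ¬ Pool.Agent.CW.PerfD (Pool.Agent.HC.Sb (h60B x)) := by
  rintro ⟨f, hf, hfm, hfi⟩
  refine hP ⟨fun u => (fun a => (f u).1 (a 0) (a 1), (f u).2), ?_, ?_, ?_⟩
  · refine Measurable.prodMk ?_ (measurable_snd.comp hf)
    refine measurable_pi_lambda _ fun a => ?_
    exact (measurable_pi_apply (a 1)).comp
      ((measurable_pi_apply (a 0)).comp (measurable_fst.comp hf))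
  · intro u
    obtain ⟨g, hg, he⟩ := hfm u
    refine ⟨g, hg, ?_⟩
    refine Prod.ext ?_ ?_
    · funext a
      have h1 : (f u).1 (a 0) (a 1) = x.1 ![g (a 0), g (a 1)] := by
        rw [he]
        rfl
      have h2 : ![g (a 0), g (a 1)] = g ∘ a := h60_vec (g ∘ a)
      change (f u).1 (a 0) (a 1) = x.1 (g ∘ a)
      rw [h1, h2]
    · change (f u).2 = fun i => x.2 (g i)
      rw [he]
      rfl
  · intro u v huv h
    obtain ⟨g, h1, h2⟩ := h
    refine hfi u v huv ⟨g, fun i j => ?_, h2⟩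
    exact h1 ![i, j]

private lemma h60_nb (x : DS 2 n C) (i j : ℕ) : nb x.1 [i, j] = ((h60B x).1 i j : ℕ) := by
  have h := nb_ofFn x.1 ![i, j]
  have e : List.ofFn ![i, j] = [i, j] := rfl
  rw [e] at h
  exact h

private lemma h60_pl (x : DS 2 n C) (p : List (ℕ × ℕ)) :
    Pl (nb x.1) (nb x.1) p ↔
      ∀ z ∈ p, ∀ w ∈ p, (h60B x).1 z.1 w.1 = (h60B x).1 z.2 w.2 := by
  constructor
  · intro h z hz w hw
    have h1 := h [z, w] (by
      intro y hy
      simp only [List.mem_cons, List.not_mem_nil, or_false] at hy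
      rcases hy with rfl | rfl
      · exact hz
      · exact hw)
    simp only [List.map_cons, List.map_nil] at h1
    rw [h60_nb, h60_nb] at h1
    exact Fin.ext h1
  · intro h q hq
    by_cases hl : q.length = 2
    · obtain ⟨z, w, rfl⟩ := List.length_eq_two.1 hl
      simp only [List.map_cons, List.map_nil]
      rw [h60_nb, h60_nb, h z (hq z (by simp)) w (hq w (by simp))]
    · unfold nb
      rw [List.length_map, List.length_map, if_neg hl, if_neg hl]

private lemma h60_so (x : DS 2 n C) (Y : Set ℕ) (a a' : List ℕ) (hl : a.length = a'.length)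
    (h1 : ∀ i < a.length, ∀ y ∈ Y, Pool.Agent.HC.pr (h60B x).1 (a.getD i 0) y =
      Pool.Agent.HC.pr (h60B x).1 (a'.getD i 0) y)
    (h2 : ∀ i < a.length, ∀ j < a.length, (h60B x).1 (a.getD i 0) (a.getD j 0) =
      (h60B x).1 (a'.getD i 0) (a'.getD j 0)) : SO (nb x.1) Y a a' := by
  refine ⟨hl, fun D hD => ?_⟩
  rw [h60_pl]
  have hz : ∀ z ∈ dg D ++ a.zip a', (z.1 = z.2 ∧ z.1 ∈ D) ∨
      ∃ i < a.length, z = (a.getD i 0, a'.getD i 0) := by
    intro z hz
    rcases List.mem_append.1 hz with h | h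
    · exact Or.inl (mem_dg.1 h)
    · obtain ⟨i, hi, hi', rfl⟩ := zip_get h
      refine Or.inr ⟨i, hi, ?_⟩
      rw [List.getD_eq_getElem _ _ hi, List.getD_eq_getElem _ _ hi']
  intro z hz' w hw'
  rcases hz z hz' with ⟨e1, e2⟩ | ⟨i, hi, rfl⟩
  · rcases hz w hw' with ⟨e3, e4⟩ | ⟨j, hj, rfl⟩
    · rw [e1, e3]
    · have h3 := h1 j hj z.1 (hD _ e2)
      have h4 : (h60B x).1 z.1 (a.getD j 0) = (h60B x).1 z.1 (a'.getD j 0) :=
        (Prod.ext_iff.1 h3).2
      rw [← e1]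
      exact h4
  · rcases hz w hw' with ⟨e3, e4⟩ | ⟨j, hj, rfl⟩
    · have h3 := h1 i hi w.1 (hD _ e4)
      have h4 : (h60B x).1 (a.getD i 0) w.1 = (h60B x).1 (a'.getD i 0) w.1 :=
        (Prod.ext_iff.1 h3).1
      rw [← e3]
      exact h4
    · exact h2 i hi j hj

/-- the key of a list -/
private def h60K {β : Type} (x : DS 2 n C) (g : ℕ → β) (a : List ℕ) :
    Fin 3 × (Fin 2 → β) × (Fin 2 → Fin 2 → Fin n) :=
  (⟨min a.length 2, by omega⟩, fun i => g (a.getD i 0),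
    fun i j => (h60B x).1 (a.getD i 0) (a.getD j 0))

private lemma h60_key {β : Type} (x : DS 2 n C) (g : ℕ → β) {a a' : List ℕ} (ha : a.length ≤ 2)
    (ha' : a'.length ≤ 2) (h : h60K x g a = h60K x g a') : a.length = a'.length ∧
      (∀ i < a.length, g (a.getD i 0) = g (a'.getD i 0)) ∧
      ∀ i < a.length, ∀ j < a.length, (h60B x).1 (a.getD i 0) (a.getD j 0) =
        (h60B x).1 (a'.getD i 0) (a'.getD j 0) := by
  obtain ⟨h1, h2⟩ := Prod.ext_iff.1 h
  obtain ⟨h3, h4⟩ := Prod.ext_iff.1 h2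
  have h5 : min a.length 2 = min a'.length 2 := Fin.ext_iff.1 h1
  refine ⟨by omega, fun i hi => ?_, fun i hi j hj => ?_⟩
  · exact congrFun h3 ⟨i, by omega⟩
  · exact congrFun (congrFun h4 ⟨i, by omega⟩) ⟨j, by omega⟩

private lemma h60_fip_of_fi (x : DS 2 n C) (A : Set ℕ) (h : Fi (n, 2) (nb x.1) A) :
    Pool.Agent.HC.FiP (h60B x).1 A := by
  classical
  obtain ⟨E, -, hE⟩ := h
  have h1 : ∀ a : ℕ, a ∈ A → ∃ e ∈ E, SO (nb x.1) Aᶜ [a] e := fun a ha =>
    hE [a] (by simp) (by simpa using ha)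
  choose! e he1 he2 using h1
  obtain ⟨k, ⟨φ⟩⟩ := Finite.exists_equiv_fin (Option {e : List ℕ // e ∈ E})
  refine ⟨k, fun a => φ (if h : a ∈ A then some ⟨e a, he1 a h⟩ else none), ?_⟩
  intro a ha a' ha' haa z hz
  have h2 := φ.injective haa
  rw [dif_pos ha, dif_pos ha'] at h2
  have h3 : e a = e a' := congrArg Subtype.val (Option.some_injective _ h2)
  have key : ∀ b ∈ A, ∃ r, e b = [r] ∧ Pool.Agent.HC.pr (h60B x).1 b z =
      Pool.Agent.HC.pr (h60B x).1 r z := by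
    intro b hb
    obtain ⟨hl, hS⟩ := he2 b hb
    obtain ⟨r, hr⟩ := List.length_eq_one_iff.1 hl.symm
    refine ⟨r, hr, ?_⟩
    have h4 := hS [z] (by simpa using hz)
    rw [hr, h60_pl] at h4
    have m1 : (z, z) ∈ dg [z] ++ [b].zip [r] := by simp [mem_dg]
    have m2 : (b, r) ∈ dg [z] ++ [b].zip [r] := by simp
    exact Prod.ext (h4 _ m2 _ m1) (h4 _ m1 _ m2)
  obtain ⟨r, hr, h5⟩ := key a ha
  obtain ⟨r', hr', h6⟩ := key a' ha'
  have h7 : r = r' := by
    rw [hr, hr'] at h3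
    simpa using h3
  rw [h5, h6, h7]

private lemma h60_fi_of_fip (x : DS 2 n C) (A : Set ℕ)
    (h : Pool.Agent.HC.FiP (h60B x).1 A) : Fi (n, 2) (nb x.1) A := by
  classical
  obtain ⟨k, f, hf⟩ := h
  let Q : Set (List ℕ) := {a | a.length ≤ 2 ∧ ∀ b ∈ a, b ∈ A}
  have hfin : (h60K x f '' Q).Finite := Set.toFinite _
  obtain ⟨E, hEQ, hE⟩ : ∃ E : Set (List ℕ), E.Finite ∧ E ⊆ Q ∧ h60K x f '' E = h60K x f '' Q := by
    obtain ⟨E, h1, h2⟩ := Set.exists_subset_bijOn Q (h60K x f)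
    refine ⟨E, ?_, h1, ?_⟩
    · exact Set.Finite.of_finite_image (h2.image_eq ▸ hfin) h2.injOn
    · exact h2.image_eq
  refine ⟨hEQ.toFinset.toList, ?_, ?_⟩
  · intro e he
    rw [Finset.mem_toList, Set.Finite.mem_toFinset] at he
    exact (hE.1 he).2
  · intro a ha haA
    have h1 : h60K x f a ∈ h60K x f '' Q := ⟨a, ⟨ha, haA⟩, rfl⟩
    rw [← hE.2] at h1
    obtain ⟨e, he, hk⟩ := h1
    refine ⟨e, ?_, ?_⟩
    · rw [Finset.mem_toList, Set.Finite.mem_toFinset]
      exact he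
    · obtain ⟨k1, k2, k3⟩ := h60_key x f ha (hE.1 he).1 hk.symm
      refine h60_so x _ a e k1 (fun i hi y hy => ?_) k3
      refine hf _ ?_ _ ?_ (k2 i hi) y hy
      · rw [List.getD_eq_getElem _ _ hi]
        exact haA _ (List.getElem_mem _)
      · rw [List.getD_eq_getElem _ _ (by omega : i < e.length)]
        exact (hE.1 he).2 _ (List.getElem_mem _)

theorem pf_BIN (hFCT : T_FCT) (hREP : T_REP) : T_BIN := by
  classical
  intro n C _ _ x hP
  obtain ⟨m, hm⟩ := Pool.Agent.HC.germs_of_sub (h60B x) (h60_perf x hP)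
  refine ⟨Nat.card (Fin 3 × (Fin 2 → Fin (m + 1)) × (Fin 2 → Fin 2 → Fin n)), ?_⟩
  intro U hU f hf hfl
  have hD : Pool.Agent.HC.Dr (h60B x).1 U :=
    ⟨fun A hA => ⟨h60_fip_of_fi x A (hU.fi A hA), hU.fin A hA⟩, hU.int,
      fun A hA => hU.ult A (h60_fi_of_fip x A hA)⟩
  obtain ⟨E, hEm, hE⟩ := hm U hD
  choose r hrE A hAU hA using hE
  obtain ⟨φ⟩ : Nonempty ({e // e ∈ E} ↪ Fin (m + 1)) := by
    refine Function.Embedding.nonempty_of_card_le ?_
    rw [Fintype.card_coe, Fintype.card_fin]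
    omega
  let g : ℕ → Fin (m + 1) := fun a => φ ⟨r a, hrE a⟩
  have hg : ∀ a b, g a = g b → r a = r b := fun a b h =>
    congrArg Subtype.val (φ.injective h)
  obtain ⟨i, j, hij, hk⟩ : ∃ i j, i ≠ j ∧ h60K x g (f i) = h60K x g (f j) := by
    by_contra hcon
    push Not at hcon
    have hinj : Function.Injective fun i => h60K x g (f i) := by
      intro i j h
      by_contra h1
      exact hcon i j h1 h
    have h1 := Nat.card_le_card_of_injective _ hinj
    rw [Nat.card_fin] at h1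
    omega
  obtain ⟨k1, k2, k3⟩ := h60_key x g (hf i) (hf j) hk
  refine ⟨i, j, hij, (A ((f i).getD 0 0) ∩ A ((f i).getD 1 0)) ∩
    (A ((f j).getD 0 0) ∩ A ((f j).getD 1 0)),
    hU.int _ (hU.int _ (hAU _) _ (hAU _)) _ (hU.int _ (hAU _) _ (hAU _)), ?_⟩
  refine h60_so x _ (f i) (f j) k1 (fun l hl y hy => ?_) k3
  have h2 : (f i).length ≤ 2 := hf i
  have h3 : r ((f i).getD l 0) = r ((f j).getD l 0) := hg _ _ (k2 l hl)
  have h4 : y ∈ A ((f i).getD l 0) ∧ y ∈ A ((f j).getD l 0) := by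
    have h5 : l = 0 ∨ l = 1 := by omega
    rcases h5 with rfl | rfl
    · exact ⟨hy.1.1, hy.2.1⟩
    · exact ⟨hy.1.2, hy.2.2⟩
  rw [hA _ y h4.1, hA _ y h4.2, h3]

end Pool.Agent.CR
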