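import Pool.Agent.H71.CR.Stmt

/-! Statement FIA: the sets of finite index form an algebra which contains the finite sets. -/

set_option autoImplicit false

open Set Pool.Agent.TK Pool.Agent.H71.VK

namespace Pool.Agent.CR

private lemma h60_fia_compl (hFCT : T_FCT) (n : Bd) (c : Lf) (hc : Lb n c) (A : Set ℕ)
    (hA : Fi n c A) : Fi n c Aᶜ := by
  classical
  obtain ⟨E, hEA, hE⟩ := hA
  refine (hFCT n c hc (Aᶜ)ᶜ Aᶜ).2 ⟨E.flatten, fun y y' hyy hy hy' hpl => ⟨hyy, fun D hD => ?_⟩⟩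
  intro s hs
  by_cases hlen : s.length ≤ n.2
  swap
  · rw [hc.ar _ (by rw [List.length_map]; omega), hc.ar _ (by rw [List.length_map]; omega)]
  let T : List (ℕ × ℕ) := s.filter fun z => decide (z ∉ y.zip y')
  let x0 : List ℕ := T.map Prod.fst
  have hx0l : x0.length ≤ n.2 := by
    have h1 : x0.length = T.length := List.length_map _
    have h2 : T.length ≤ s.length := List.length_filter_le _ _
    omega
  have hT : ∀ z ∈ T, z ∈ dg D := by
    intro z hz
    have h1 := List.mem_filter.1 hz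
    rcases List.mem_append.1 (hs z h1.1) with h2 | h2
    · exact h2
    · exact absurd h2 (of_decide_eq_true h1.2)
  have hx0A : ∀ a ∈ x0, a ∈ A := by
    intro a ha
    obtain ⟨z, hz, rfl⟩ := List.mem_map.1 ha
    exact not_not.1 (hD _ (mem_dg.1 (hT z hz)).2)
  obtain ⟨e, heE, hel, heS⟩ := hE x0 hx0l hx0A
  have p1 : Pl c c (dg y ++ x0.zip e) := heS y hy
  have p2 : Pl c c (dg e ++ y.zip y') := hpl.mono (by
    intro z hz
    rw [List.mem_append, mem_dg] at hz
    rw [List.mem_append, mem_dg]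
    rcases hz with h | h
    · exact Or.inl ⟨h.1, List.mem_flatten.2 ⟨e, heE, h.2⟩⟩
    · exact Or.inr h)
  have p3 : Pl c c (dg y' ++ e.zip x0) := (heS y' hy').zip_symm
  have p12 : Pl c c (x0.zip e ++ y.zip y') := by
    refine p1.comp p2 fun z hz => ?_
    rcases List.mem_append.1 hz with h | h
    · refine ⟨z.2, List.mem_append_right _ h, List.mem_append_left _ (mem_dg.2 ⟨rfl, ?_⟩)⟩
      exact (List.of_mem_zip h).2
    · refine ⟨z.1, List.mem_append_left _ (mem_dg.2 ⟨rfl, ?_⟩), List.mem_append_right _ h⟩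
      exact (List.of_mem_zip h).1
  have p13 : Pl c c (dg x0 ++ y.zip y') := by
    refine p12.comp p3 fun z hz => ?_
    rcases List.mem_append.1 hz with h | h
    · obtain ⟨h1, h2⟩ := mem_dg.1 h
      obtain ⟨i, hi, hiz⟩ := List.mem_iff_getElem.1 h2
      refine ⟨e[i]'(by omega), List.mem_append_left _ ?_, List.mem_append_right _ ?_⟩
      · rw [← hiz]
        exact get_zip hi (by omega)
      · rw [← h1, ← hiz]
        exact get_zip (by omega) hi
    · refine ⟨z.2, List.mem_append_right _ h, List.mem_append_left _ (mem_dg.2 ⟨rfl, ?_⟩)⟩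
      exact (List.of_mem_zip h).2
  refine p13 s fun z hz => ?_
  by_cases h1 : z ∈ y.zip y'
  · exact List.mem_append_right _ h1
  · have h2 : z ∈ T := List.mem_filter.2 ⟨hz, decide_eq_true h1⟩
    exact List.mem_append_left _ (mem_dg.2 ⟨(mem_dg.1 (hT z h2)).1, List.mem_map_of_mem h2⟩)

private lemma h60_fia_inter (hFCT : T_FCT) (n : Bd) (c : Lf) (hc : Lb n c) (A B : Set ℕ)
    (hA : Fi n c A) (hB : Fi n c B) : Fi n c (A ∩ B) := by
  classical
  obtain ⟨LA, hLA, hA'⟩ := (hFCT n c hc Aᶜ A).1 hA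
  obtain ⟨LB, hLB, hB'⟩ := (hFCT n c hc Bᶜ B).1 hB
  refine (hFCT n c hc (A ∩ B)ᶜ (A ∩ B)).2 ⟨LA ++ LB, fun x x' hxx hx hx' hpl =>
    ⟨hxx, fun D hD => ?_⟩⟩
  let D1 : List ℕ := D.filter fun a => decide (a ∉ A)
  let D2 : List ℕ := D.filter fun a => decide (a ∈ A)
  let L1 : List ℕ := LA.filter fun a => decide (a ∈ B)
  let L2 : List ℕ := LA.filter fun a => decide (a ∉ B)
  have hL1 : ∀ a, a ∈ L1 ↔ a ∈ LA ∧ a ∈ B := by
    intro a
    simp only [L1, List.mem_filter, decide_eq_true_eq]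
  have hL2 : ∀ a, a ∈ L2 ↔ a ∈ LA ∧ a ∉ B := by
    intro a
    simp only [L2, List.mem_filter, decide_eq_true_eq]
  have hD1 : ∀ a, a ∈ D1 ↔ a ∈ D ∧ a ∉ A := by
    intro a
    simp only [D1, List.mem_filter, decide_eq_true_eq]
  have hD2 : ∀ a, a ∈ D2 ↔ a ∈ D ∧ a ∈ A := by
    intro a
    simp only [D2, List.mem_filter, decide_eq_true_eq]
  have s1 := (hB' (x ++ L1) (x' ++ L1) (by simp [hxx]) (by
    intro a ha
    rcases List.mem_append.1 ha with h | h
    · exact (hx a h).2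
    · exact ((hL1 a).1 h).2) (by
    intro a ha
    rcases List.mem_append.1 ha with h | h
    · exact (hx' a h).2
    · exact ((hL1 a).1 h).2) (hpl.mono (by
    intro z hz
    rw [List.zip_append hxx, ← dg_eq_zip] at hz
    simp only [List.mem_append, mem_dg] at hz ⊢
    rcases hz with h | h | h
    · exact Or.inl ⟨h.1, Or.inr h.2⟩
    · exact Or.inr h
    · exact Or.inl ⟨h.1, Or.inl ((hL1 _).1 h.2).1⟩))).2 (D2 ++ L2) (by
    intro a ha
    rcases List.mem_append.1 ha with h | h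
    · have h1 := (hD2 a).1 h
      exact fun h2 => hD a h1.1 ⟨h1.2, h2⟩
    · exact ((hL2 a).1 h).2)
  have s2 := (hA' (x ++ D2) (x' ++ D2) (by simp [hxx]) (by
    intro a ha
    rcases List.mem_append.1 ha with h | h
    · exact (hx a h).1
    · exact ((hD2 a).1 h).2) (by
    intro a ha
    rcases List.mem_append.1 ha with h | h
    · exact (hx' a h).1
    · exact ((hD2 a).1 h).2) (s1.mono (by
    intro z hz
    rw [List.zip_append hxx, ← dg_eq_zip] at hz ⊢
    simp only [List.mem_append, mem_dg] at hz ⊢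
    rcases hz with h | h | h
    · by_cases h1 : z.1 ∈ B
      · exact Or.inr (Or.inr ⟨h.1, (hL1 _).2 ⟨h.2, h1⟩⟩)
      · exact Or.inl ⟨h.1, Or.inr ((hL2 _).2 ⟨h.2, h1⟩)⟩
    · exact Or.inr (Or.inl h)
    · exact Or.inl ⟨h.1, Or.inl h.2⟩))).2 D1 (by
    intro a ha
    exact ((hD1 a).1 ha).2)
  refine s2.mono ?_
  intro z hz
  rw [List.zip_append hxx, ← dg_eq_zip]
  simp only [List.mem_append, mem_dg] at hz ⊢
  rcases hz with h | h
  · by_cases h1 : z.1 ∈ A
    · exact Or.inr (Or.inr ⟨h.1, (hD2 _).2 ⟨h.2, h1⟩⟩)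
    · exact Or.inl ⟨h.1, (hD1 _).2 ⟨h.2, h1⟩⟩
  · exact Or.inr (Or.inl h)

theorem pf_FIA (hREP : T_REP) (hFCT : T_FCT) : T_FIA := by
  intro n c hc
  refine ⟨h60_fia_compl hFCT n c hc, h60_fia_inter hFCT n c hc, fun A hA => ?_⟩
  have : Finite A := hA
  have hfin := (List.finite_length_le A n.2).image (List.map Subtype.val)
  refine ⟨hfin.toFinset.toList, ?_, ?_⟩
  · intro e he a ha
    rw [Finset.mem_toList, Set.Finite.mem_toFinset] at he
    obtain ⟨l, _, rfl⟩ := he
    obtain ⟨b, _, rfl⟩ := List.mem_map.1 ha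
    exact b.2
  · intro x hx hxA
    refine ⟨x, ?_, rfl, fun D _ => pl_diag fun z hz => ?_⟩
    · rw [Finset.mem_toList, Set.Finite.mem_toFinset]
      lift x to List A using hxA
      rw [List.length_map] at hx
      exact ⟨x, hx, rfl⟩
    · rcases List.mem_append.1 hz with h | h
      · exact (mem_dg.1 h).1
      · rw [← dg_eq_zip] at h
        exact (mem_dg.1 h).1

end Pool.Agent.CR
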