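import Pool.Agent.H71.CR.Stmt

/-! Statement SEP: tuples which are not joined with a list by edges. -/

set_option autoImplicit false

open Set Pool.Agent.TK Pool.Agent.H71.VK

namespace Pool.Agent.CR

private lemma h60_zip_fst_snd (T : List (ℕ × ℕ)) : (T.map Prod.fst).zip (T.map Prod.snd) = T := by
  induction T with
  | nil => rfl
  | cons a T ih => simp only [List.map_cons, List.zip_cons_cons, ih]

theorem pf_SEP (hFRM : T_FRM) (hFRE : T_FRE) : T_SEP := by
  classical
  intro n c Sm G π B hB x x' C hxx hx hx' hC hE hpl s hs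
  by_cases hlen : s.length ≤ n.2
  swap
  · rw [G.lb.ar _ (by rw [List.length_map]; omega), G.lb.ar _ (by rw [List.length_map]; omega)]
  let T : List (ℕ × ℕ) := s.filter fun z => decide (z ∈ x.zip x')
  let T' : List (ℕ × ℕ) := s.filter fun z => !decide (z ∈ x.zip x')
  have hTz : ∀ z ∈ T, z ∈ x.zip x' := fun z hz => of_decide_eq_true (List.mem_filter.1 hz).2
  have hlen2 : T.length + T'.length = s.length :=
    (List.length_eq_length_filter_add (l := s) fun z => decide (z ∈ x.zip x')).symm
  let D : List ℕ := T.map Prod.fst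
  let D' : List ℕ := T.map Prod.snd
  let C' : List ℕ := (T'.filter fun z => decide (z ∈ dg C)).map Prod.fst
  have hDl : D.length = T.length := List.length_map _
  have hDl' : D'.length = T.length := List.length_map _
  have hCl : C'.length ≤ T'.length := by
    change ((T'.filter fun z => decide (z ∈ dg C)).map Prod.fst).length ≤ _
    rw [List.length_map]
    exact List.length_filter_le _ _
  have hDx : ∀ a ∈ D, a ∈ x := by
    intro a ha
    obtain ⟨z, hz, rfl⟩ := List.mem_map.1 ha
    exact (List.of_mem_zip (hTz z hz)).1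
  have hDx' : ∀ a ∈ D', a ∈ x' := by
    intro a ha
    obtain ⟨z, hz, rfl⟩ := List.mem_map.1 ha
    exact (List.of_mem_zip (hTz z hz)).2
  have hCC : ∀ a ∈ C', a ∈ C := by
    intro a ha
    obtain ⟨z, hz, rfl⟩ := List.mem_map.1 ha
    exact (mem_dg.1 (of_decide_eq_true (List.mem_filter.1 hz).2)).2
  have hmD : G.Mb π B D := fun a ha => hx a (hDx a ha)
  have hmD' : G.Mb π B D' := fun a ha => hx' a (hDx' a ha)
  have hfD : G.Fr π (C' ++ B) D := by
    by_contra hcon
    obtain ⟨e, he, _, ⟨a, ha, haD⟩, b, hb, hbC⟩ := hFRE n c Sm G π B hB D C' (by omega) hmD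
      (fun a ha => hC a (hCC a ha)) hcon
    exact (hE e he ⟨b, hb, hCC b hbC⟩ a ha).1 (hDx a haD)
  have hfD' : G.Fr π (C' ++ B) D' := by
    by_contra hcon
    obtain ⟨e, he, _, ⟨a, ha, haD⟩, b, hb, hbC⟩ := hFRE n c Sm G π B hB D' C' (by omega) hmD'
      (fun a ha => hC a (hCC a ha)) hcon
    exact (hE e he ⟨b, hb, hCC b hbC⟩ a ha).2 (hDx' a haD)
  have hz : D.zip D' = T := h60_zip_fst_snd T
  have h1 := (hFRM n c Sm G π B hB).1 (C' ++ B) (List.subset_append_right _ _) D D'
    (hDl.trans hDl'.symm) hfD hfD' (hpl.mono (by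
      intro z hz'
      rw [hz, List.mem_append] at hz'
      rw [List.mem_append]
      rcases hz' with h | h
      · exact Or.inl h
      · exact Or.inr (hTz z h)))
  refine h1 s fun z hzs => ?_
  rw [hz, List.mem_append]
  by_cases h2 : z ∈ x.zip x'
  · exact Or.inr (List.mem_filter.2 ⟨hzs, decide_eq_true h2⟩)
  · left
    rw [mem_dg]
    have h3 := hs z hzs
    rw [List.mem_append, List.mem_append] at h3
    rcases h3 with h3 | h3 | h3
    · refine ⟨(mem_dg.1 h3).1, List.mem_append_left _ ?_⟩
      refine List.mem_map.2 ⟨z, List.mem_filter.2 ⟨List.mem_filter.2 ⟨hzs, ?_⟩,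
        decide_eq_true h3⟩, rfl⟩
      simpa using h2
    · exact ⟨(mem_dg.1 h3).1, List.mem_append_right _ (mem_dg.1 h3).2⟩
    · exact absurd h3 h2

end Pool.Agent.CR
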