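import Pool.Agent.H71.CR.StmtW

/-! W1: all nodes have few classes over their complements. -/

set_option autoImplicit false

open Set Pool.Agent.TK Pool.Agent.H71.VK

namespace Pool.Agent.CR

/-- W1: all nodes have few classes over their complements. -/
theorem pf_W1 : W1 := by
  intro n c k W A h
  induction h with
  | sing x hx =>
      refine ⟨Finset.singleton_subset_iff.2 hx, Finset.singleton_nonempty x, fun _ => 0, ?_⟩
      intro a a' _ haa ha ha' _
      have h1 : ∀ (l l' : List ℕ), l.length = l'.length → (∀ b ∈ l, b = x) →
          (∀ b ∈ l', b = x) → l = l' := by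
        intro l l' hl h h'
        rw [List.eq_replicate_iff.2 ⟨rfl, h⟩, List.eq_replicate_iff.2 ⟨rfl, h'⟩, hl]
      have e : a = a' := h1 a a' haa
        (fun b hb => by simpa using ha b hb) (fun b hb => by simpa using ha' b hb)
      refine ⟨haa, fun D _ => pl_diag fun z hz => ?_⟩
      rw [e, ← dg_eq_zip] at hz
      rcases List.mem_append.1 hz with h | h
      · exact (mem_dg.1 h).1
      · exact (mem_dg.1 h).1
  | join A B _ _ _ hf ihA ihB =>
      refine ⟨Finset.union_subset ihA.1 ihB.1, ihA.2.1.mono Finset.subset_union_left, ?_⟩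
      obtain ⟨f, hf⟩ := hf
      exact ⟨fun x => (f x).castSucc, fun a a' hl haa ha ha' hff =>
        hf a a' hl haa ha ha' (Fin.castSucc_injective k hff)⟩

end Pool.Agent.CR
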